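import Pool.Agent.TwoPow.Check

/-!
# The criterion holds for all primes, all even numbers and all multiples of 40 explicit primes

`R n = -2/n + ∑_{k=1}^n 2^k/k` and `numR n` is its numerator in lowest terms.
-/

namespace Pool.Agent.Results.MP_532480_nt.GoodPrimeDivisors

open Pool.Agent.TwoPow

/-- The list of the 40 primes. -/
def primeList : List ℕ := [3, 7, 11, 17, 43, 61, 71, 97, 101, 107, 109, 127, 139, 149, 191, 223, 227,
  229, 233, 251, 277, 347, 353, 409, 433, 443, 467, 503, 521, 563, 587, 593, 691, 787, 811, 827,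
  857, 859, 911, 967]

lemma primeList_prime : ∀ p ∈ primeList, p.Prime := by
  intro p hp
  simp only [primeList, List.mem_cons, List.not_mem_nil, or_false] at hp
  rcases hp with h | h | h | h | h | h | h | h | h | h | h | h | h | h | h | h | h | h | h | h |
    h | h | h | h | h | h | h | h | h | h | h | h | h | h | h | h | h | h | h | h <;>
  · subst h; norm_num

/-- For every integer `n > 3` which is a prime, or even, or divisible by one of the 40 primes of
the list, `n²` divides the numerator of `R(n) = -2/n + ∑_{k=1}^n 2^k/k` iff `n` is prime. -/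
theorem result (n : ℕ) (h3 : 3 < n)
    (h : n.Prime ∨ 2 ∣ n ∨ ∃ p ∈ primeList, p ∣ n) :
    (n : ℤ) ^ 2 ∣ (-2 / (n : ℚ) + ∑ k ∈ Finset.Icc 1 n, (2 : ℚ) ^ k / (k : ℚ)).num ↔ n.Prime := by
  change (n : ℤ) ^ 2 ∣ numR n ↔ n.Prime
  rcases h with h | h | ⟨p, hp, hpn⟩
  · exact equiv_of_prime h3 h
  · exact equiv_of_even h3 (even_iff_two_dvd.mpr h)
  · have hpp := primeList_prime p hp
    have := Fact.mk hpp
    have hc : goodCheck p = true := by
      have h1 := goodList_check
      rw [List.all_eq_true] at h1
      exact h1 p hp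
    have hp2 : p ≠ 2 := by
      rintro rfl
      revert hp
      decide
    obtain ⟨h5, h6, h7⟩ := good_of_check hp2 hc
    exact equiv_of_good hp2 h5 h6 h7 h3 hpn

end Pool.Agent.Results.MP_532480_nt.GoodPrimeDivisors
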