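import Pool.Agent.TwoPowSparse.Main

/-!
# The asked equivalence holds for all `n` outside a very sparse set

`R n = -2/n + ∑_{k=1}^n 2^k/k`; its numerator in lowest terms is `(R n).num = N(n)`, its
denominator `(R n).den = D(n)`.
-/

namespace Pool.Agent.Results.MP_532480_nt.PowerSaving

/-- `R n = -2/n + ∑_{k=1}^n 2^k/k`. -/
def R (n : ℕ) : ℚ := -2 / (n : ℚ) + ∑ k ∈ Finset.Icc 1 n, (2 : ℚ) ^ k / (k : ℚ)

lemma ncard_le_card (s : Set ℕ) (t : Finset ℕ) (h : ∀ n ∈ s, n ∈ t) :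
    (s.ncard : ℝ) ≤ (t.card : ℝ) := by
  have := Set.ncard_le_ncard (show s ⊆ ↑t from h) (Finset.finite_toSet t)
  rw [Set.ncard_coe_finset] at this
  exact_mod_cast this

/-- (1) For every odd prime `p` at most `3 p x^(3/4) (1 + log₂ x)` of the multiples `n ≤ x` of `p`
have `p ∤ D(n)`. (2) At most `C x^(17/18) (log x)²` composite `n ≤ x` have `n ∣ N(n)`, or are odd
and prime to `D(n)`. (3) At most so many `n` with `3 < n ≤ x` violate the asked equivalence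
`n² ∣ N(n) ↔ n` prime. -/
theorem result :
    (∀ p : ℕ, p.Prime → p ≠ 2 → ∀ x : ℕ, 1 ≤ x →
      ({n : ℕ | 1 ≤ n ∧ n ≤ x ∧ p ∣ n ∧ ¬ p ∣ (R n).den}.ncard : ℝ) ≤
        3 * p * (x : ℝ) ^ (3 / 4 : ℝ) * (Nat.log 2 x + 1)) ∧
    ∃ C : ℝ, 0 < C ∧ ∀ x : ℕ, 2 ≤ x →
      ({n : ℕ | 1 < n ∧ n ≤ x ∧ ¬ n.Prime ∧
          ((n : ℤ) ∣ (R n).num ∨ (Odd n ∧ n.Coprime (R n).den))}.ncard : ℝ) ≤
        C * (x : ℝ) ^ (17 / 18 : ℝ) * Real.log x ^ 2 ∧
      ({n : ℕ | 3 < n ∧ n ≤ x ∧ ¬ ((n : ℤ) ^ 2 ∣ (R n).num ↔ n.Prime)}.ncard : ℝ) ≤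
        C * (x : ℝ) ^ (17 / 18 : ℝ) * Real.log x ^ 2 := by
  have hR : ∀ n, R n = Pool.Agent.TwoPow.R n := fun n => rfl
  have hexc : ∀ x n : ℕ, 1 < n → n ≤ x → ¬ n.Prime →
      ((n : ℤ) ∣ (R n).num ∨ (Odd n ∧ n.Coprime (R n).den)) → n ∈ Pool.Agent.TwoPowSparse.Exc x := by
    intro x n h1 hx hp h
    have hodd : Odd n ∧ n.Coprime (R n).den := by
      rcases h with h | h
      · refine ⟨?_, ?_⟩
        · rcases Nat.even_or_odd n with he | ho
          · exfalso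
            apply Pool.Agent.TwoPow.numR_odd_of_even he (by omega)
            have h2 : (2 : ℤ) ∣ (n : ℤ) := by exact_mod_cast he.two_dvd
            exact h2.trans h
          · exact ho
        · have h2 := (R n).reduced
          have h3 : n ∣ (R n).num.natAbs := Int.natCast_dvd.mp h
          exact Nat.Coprime.coprime_dvd_left h3 h2
      · exact h
    unfold Pool.Agent.TwoPowSparse.Exc
    rw [Finset.mem_filter, Finset.mem_Icc]
    refine ⟨⟨by omega, hx⟩, by omega, hp, hodd.1, ?_⟩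
    intro h4
    have h5 : n.minFac ∣ n.gcd (R n).den := Nat.dvd_gcd (Nat.minFac_dvd n) h4
    rw [hodd.2] at h5
    have := Nat.dvd_one.mp h5
    exact absurd this (Nat.minFac_prime (by omega)).ne_one
  refine ⟨?_, ?_⟩
  · intro p hp hp2 x hx
    have : Fact p.Prime := ⟨hp⟩
    refine le_trans (ncard_le_card _ _ fun n hn => ?_)
      (Pool.Agent.TwoPowSparse.card_multiples (p := p) hp2 x hx)
    rw [Finset.mem_filter, Finset.mem_Icc]
    exact ⟨⟨hn.1, hn.2.1⟩, hn.2.2⟩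
  · obtain ⟨C, hC, h⟩ := Pool.Agent.TwoPowSparse.exc_bound
    refine ⟨C, hC, fun x hx => ⟨?_, ?_⟩⟩
    · exact le_trans (ncard_le_card _ _ fun n hn => hexc x n hn.1 hn.2.1 hn.2.2.1 hn.2.2.2) (h x hx)
    · refine le_trans (ncard_le_card _ _ fun n hn => ?_) (h x hx)
      obtain ⟨h3, hx', hne⟩ := hn
      have hnp : ¬ n.Prime := fun hp => hne (Pool.Agent.TwoPow.equiv_of_prime h3 hp)
      have hdvd : (n : ℤ) ^ 2 ∣ (R n).num := by
        by_contra hnd
        exact hne ⟨fun h => absurd h hnd, fun h => absurd h hnp⟩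
      exact hexc x n (by omega) hx' hnp (Or.inl ((dvd_pow_self _ (by norm_num)).trans hdvd))

end Pool.Agent.Results.MP_532480_nt.PowerSaving
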