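import Pool.Agent.TwoPow.PrimePower
import Pool.Agent.TwoPow.Local

/-!
# Proper prime powers

`R n = -2/n + ∑_{k=1}^n 2^k/k`.
-/

namespace Pool.Agent.Results.MP_532480_nt.PrimePowers

open Pool.Agent.TwoPow

/-- If `n = p ^ e` is a proper prime power (`e ≥ 2`) and `n²` divides the numerator of
`R(n) = -2/n + ∑_{k=1}^n 2^k/k`, then `p` is odd and `p ^ 4` divides the numerator of `R(p)`. -/
theorem result (p e : ℕ) (hp : p.Prime) (he : 2 ≤ e)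
    (h : ((p ^ e : ℕ) : ℤ) ^ 2 ∣
      (-2 / ((p ^ e : ℕ) : ℚ) + ∑ k ∈ Finset.Icc 1 (p ^ e), (2 : ℚ) ^ k / (k : ℚ)).num) :
    p ≠ 2 ∧ (p : ℤ) ^ 4 ∣ (-2 / (p : ℚ) + ∑ k ∈ Finset.Icc 1 p, (2 : ℚ) ^ k / (k : ℚ)).num := by
  have := Fact.mk hp
  have h2 : p ≠ 2 := by
    rintro rfl
    have he2 : Even (2 ^ e) := (Nat.even_pow.mpr ⟨even_two, by omega⟩)
    have h0 : (2 ^ e) ≠ 0 := by positivity
    apply numR_odd_of_even he2 h0
    have h1 : (2 : ℤ) ∣ ((2 ^ e : ℕ) : ℤ) := by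
      exact_mod_cast he2.two_dvd
    exact (h1.trans (dvd_pow_self _ (by norm_num))).trans h
  exact ⟨h2, four_dvd_of_prime_power h2 he h⟩

end Pool.Agent.Results.MP_532480_nt.PrimePowers
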